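import Pool.Agent.Helper95.PW.Stmts

/-! Row KIN: the kinetic double commutator. -/

set_option autoImplicit false

namespace Pool.Agent.Helper95.PW

open MeasureTheory Filter

/-! ### derivatives -/

theorem kin_cd_dv {n : ℕ} (k : Fin n) (i : Fin 3) {v : Cf n → ℝ}
    (hv : ContDiff ℝ (⊤ : ℕ∞) v) : ContDiff ℝ (⊤ : ℕ∞) (dv k i v) := by
  unfold dv
  exact (hv.fderiv_right (m := ((⊤ : ℕ∞) : WithTop ℕ∞)) (by simp)).clm_apply contDiff_const

theorem kin_cs_dv {n : ℕ} (k : Fin n) (i : Fin 3) {v : Cf n → ℝ}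
    (hv : HasCompactSupport v) : HasCompactSupport (dv k i v) := by
  unfold dv
  exact hv.fderiv_apply (𝕜 := ℝ) _

theorem kin_cd_pd (i : Fin 3) {f : R3 → ℝ} (hf : ContDiff ℝ (⊤ : ℕ∞) f) :
    ContDiff ℝ (⊤ : ℕ∞) (pd i f) := by
  unfold pd
  exact (hf.fderiv_right (m := ((⊤ : ℕ∞) : WithTop ℕ∞)) (by simp)).clm_apply contDiff_const

theorem kin_cd_ev {n : ℕ} (k : Fin n) {f : R3 → ℝ} (hf : ContDiff ℝ (⊤ : ℕ∞) f) :
    ContDiff ℝ (⊤ : ℕ∞) (fun x : Cf n => f (x k)) :=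
  hf.comp (contDiff_apply ℝ R3 k)

theorem kin_diff {n : ℕ} {v : Cf n → ℝ} (hv : ContDiff ℝ (⊤ : ℕ∞) v) (x : Cf n) :
    DifferentiableAt ℝ v x := (hv.differentiable (by simp)) x

theorem kin_diff' {f : R3 → ℝ} (hf : ContDiff ℝ (⊤ : ℕ∞) f) (y : R3) :
    DifferentiableAt ℝ f y := (hf.differentiable (by simp)) y

theorem kin_dv_ev {n : ℕ} (l k : Fin n) (m : Fin 3) {f : R3 → ℝ} (hf : ContDiff ℝ (⊤ : ℕ∞) f)
    (x : Cf n) : dv l m (fun x : Cf n => f (x k)) x = if l = k then pd m f (x k) else 0 := by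
  unfold dv pd
  have h1 : HasFDerivAt (fun x : Cf n => f (x k))
      ((fderiv ℝ f (x k)).comp (ContinuousLinearMap.proj (R := ℝ) (φ := fun _ : Fin n => R3) k))
      x := by
    exact (kin_diff' hf (x k)).hasFDerivAt.comp x
      ((ContinuousLinearMap.proj (R := ℝ) (φ := fun _ : Fin n => R3) k).hasFDerivAt)
  rw [h1.fderiv, ContinuousLinearMap.comp_apply, ContinuousLinearMap.proj_apply]
  split_ifs with h
  · subst h
    rw [Pi.single_eq_same]
  · rw [Pi.single_eq_of_ne (fun h' => h h'.symm), map_zero]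

theorem kin_dv_add {n : ℕ} (k : Fin n) (i : Fin 3) {a b : Cf n → ℝ}
    (ha : ContDiff ℝ (⊤ : ℕ∞) a) (hb : ContDiff ℝ (⊤ : ℕ∞) b) (x : Cf n) :
    dv k i (fun x => a x + b x) x = dv k i a x + dv k i b x := by
  unfold dv
  rw [fderiv_fun_add (kin_diff ha x) (kin_diff hb x)]
  rfl

theorem kin_dv_mul {n : ℕ} (k : Fin n) (i : Fin 3) {a b : Cf n → ℝ}
    (ha : ContDiff ℝ (⊤ : ℕ∞) a) (hb : ContDiff ℝ (⊤ : ℕ∞) b) (x : Cf n) :
    dv k i (fun x => a x * b x) x = dv k i a x * b x + a x * dv k i b x := by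
  unfold dv
  rw [fderiv_fun_mul (kin_diff ha x) (kin_diff hb x)]
  simp only [ContinuousLinearMap.add_apply, ContinuousLinearMap.smul_apply, smul_eq_mul]
  ring

theorem kin_dv_sum {n : ℕ} (k : Fin n) (i : Fin 3) {ι : Type} (s : Finset ι)
    {f : ι → Cf n → ℝ} (hf : ∀ j, ContDiff ℝ (⊤ : ℕ∞) (f j)) (x : Cf n) :
    dv k i (fun x => ∑ j ∈ s, f j x) x = ∑ j ∈ s, dv k i (f j) x := by
  unfold dv
  rw [fderiv_fun_sum (fun j _ => kin_diff (hf j) x), ContinuousLinearMap.sum_apply]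

theorem kin_dv_comm {n : ℕ} (k l : Fin n) (i m : Fin 3) {v : Cf n → ℝ}
    (hv : ContDiff ℝ (⊤ : ℕ∞) v) (x : Cf n) :
    dv k i (dv l m v) x = dv l m (dv k i v) x := by
  have hd : ContDiff ℝ (⊤ : ℕ∞) (fderiv ℝ v) :=
    hv.fderiv_right (m := ((⊤ : ℕ∞) : WithTop ℕ∞)) (by simp)
  have key : ∀ a b : Cf n, fderiv ℝ (fun x => fderiv ℝ v x a) x b =
      fderiv ℝ (fderiv ℝ v) x b a := by
    intro a b
    have h1 := (hd.differentiable (by simp)) x
    have h2 := (h1.hasFDerivAt.clm_apply (hasFDerivAt_const a x)).fderiv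
    rw [h2]
    simp
  unfold dv
  rw [key, key]
  have h3 : IsSymmSndFDerivAt ℝ v x :=
    (hv.contDiffAt).isSymmSndFDerivAt (by
      rw [minSmoothness_of_isRCLikeNormedField]
      exact WithTop.coe_le_coe.mpr (le_top : (2 : ℕ∞) ≤ ⊤))
  exact h3 _ _

theorem kin_pd_half {ι : Type} (s : Finset ι) (m : Fin 3) {f : ι → R3 → ℝ}
    (hf : ∀ j, ContDiff ℝ (⊤ : ℕ∞) (f j)) (y : R3) :
    pd m (fun y => (∑ j ∈ s, f j y) / 2) y = (∑ j ∈ s, pd m (f j) y) / 2 := by
  unfold pd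
  have h1 : HasFDerivAt (fun y => (∑ j ∈ s, f j y) / 2)
      ((2 : ℝ)⁻¹ • ∑ j ∈ s, fderiv ℝ (f j) y) y := by
    have h2 : HasFDerivAt (fun y => ∑ j ∈ s, f j y) (∑ j ∈ s, fderiv ℝ (f j) y) y :=
      HasFDerivAt.fun_sum (fun j _ => (kin_diff' (hf j) y).hasFDerivAt)
    have h3 := h2.const_mul (2 : ℝ)⁻¹
    refine h3.congr_of_eventuallyEq (Filter.Eventually.of_forall fun z => ?_)
    simp only
    ring
  rw [h1.fderiv, ContinuousLinearMap.smul_apply, ContinuousLinearMap.sum_apply, smul_eq_mul]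
  ring

theorem kin_pd_zero {f : R3 → ℝ} {R : ℝ} (hf : ∀ y, R < nr y → f y = 0) (m : Fin 3) :
    ∀ y, R < nr y → pd m f y = 0 := by
  intro y hy
  have hc : Continuous nr := by
    unfold nr
    fun_prop
  have h1 : f =ᶠ[nhds y] fun _ => 0 := by
    filter_upwards [(isOpen_lt continuous_const hc).mem_nhds hy] with z hz
    exact hf z hz
  unfold pd
  rw [h1.fderiv_eq]
  simp

theorem kin_cd_lap {g : R3 → ℝ} (hg : ContDiff ℝ (⊤ : ℕ∞) g) :
    ContDiff ℝ (⊤ : ℕ∞) (fun y => lap g y / 2) := by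
  unfold lap
  exact (ContDiff.sum fun i _ => kin_cd_pd i (kin_cd_pd i hg)).div_const 2

/-! ### the commutator with a derivative -/

/-- `[dv k i, P]` -/
noncomputable def kin_C {n : ℕ} (g : R3 → ℝ) (k : Fin n) (i : Fin 3) (v : Cf n → ℝ)
    (x : Cf n) : ℝ :=
  (∑ j, pd i (pd j g) (x k) * dv k j v x) + pd i (fun y => lap g y / 2) (x k) * v x

/-- `[P, [dv k i, P]]` -/
noncomputable def kin_B {n : ℕ} (g : R3 → ℝ) (k : Fin n) (i : Fin 3) (v : Cf n → ℝ)
    (x : Cf n) : ℝ :=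
  (∑ j, (∑ m, pd m g (x k) * pd m (pd i (pd j g)) (x k)) * dv k j v x) +
    (∑ m, pd m g (x k) * pd m (pd i (fun y => lap g y / 2)) (x k)) * v x -
    ∑ j, pd i (pd j g) (x k) * kin_C g k j v x

theorem kin_cd_P {n : ℕ} {g : R3 → ℝ} (hg : ContDiff ℝ (⊤ : ℕ∞) g) {v : Cf n → ℝ}
    (hv : ContDiff ℝ (⊤ : ℕ∞) v) : ContDiff ℝ (⊤ : ℕ∞) (Pg g v) := by
  unfold Pg
  refine ContDiff.sum fun k _ => ?_
  refine ContDiff.add ?_ ?_
  · exact ContDiff.sum fun i _ => (kin_cd_ev k (kin_cd_pd i hg)).mul (kin_cd_dv k i hv)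
  · exact (kin_cd_ev k (kin_cd_lap hg)).mul hv

theorem kin_cd_C {n : ℕ} {g : R3 → ℝ} (hg : ContDiff ℝ (⊤ : ℕ∞) g) {v : Cf n → ℝ}
    (hv : ContDiff ℝ (⊤ : ℕ∞) v) (k : Fin n) (i : Fin 3) :
    ContDiff ℝ (⊤ : ℕ∞) (kin_C g k i v) := by
  unfold kin_C
  refine ContDiff.add ?_ ?_
  · exact ContDiff.sum fun j _ =>
      (kin_cd_ev k (kin_cd_pd i (kin_cd_pd j hg))).mul (kin_cd_dv k j hv)
  · exact (kin_cd_ev k (kin_cd_pd i (kin_cd_lap hg))).mul hv

theorem kin_A {n : ℕ} {g : R3 → ℝ} (hg : ContDiff ℝ (⊤ : ℕ∞) g) {v : Cf n → ℝ}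
    (hv : ContDiff ℝ (⊤ : ℕ∞) v) (k : Fin n) (i : Fin 3) (x : Cf n) :
    dv k i (Pg g v) x = Pg g (dv k i v) x + kin_C g k i v x := by
  have h1 : dv k i (Pg g v) x = ∑ l, ((∑ m, (dv k i (fun x : Cf n => pd m g (x l)) x * dv l m v x +
      pd m g (x l) * dv k i (dv l m v) x)) +
      (dv k i (fun x : Cf n => (fun y => lap g y / 2) (x l)) x * v x +
        lap g (x l) / 2 * dv k i v x)) := by
    unfold Pg
    rw [kin_dv_sum k i Finset.univ (f := fun l x => (∑ m, pd m g (x l) * dv l m v x) +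
      lap g (x l) / 2 * v x) (fun l => ?_) x]
    · refine Finset.sum_congr rfl fun l _ => ?_
      rw [kin_dv_add k i (a := fun x => ∑ m, pd m g (x l) * dv l m v x)
        (b := fun x => lap g (x l) / 2 * v x) ?_ ?_ x]
      · congr 1
        · rw [kin_dv_sum k i Finset.univ (f := fun m x => pd m g (x l) * dv l m v x)
            (fun m => (kin_cd_ev l (kin_cd_pd m hg)).mul (kin_cd_dv l m hv)) x]
          refine Finset.sum_congr rfl fun m _ => ?_
          exact kin_dv_mul k i (kin_cd_ev l (kin_cd_pd m hg)) (kin_cd_dv l m hv) x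
        · exact kin_dv_mul k i (kin_cd_ev l (kin_cd_lap hg)) hv x
      · exact ContDiff.sum fun m _ => (kin_cd_ev l (kin_cd_pd m hg)).mul (kin_cd_dv l m hv)
      · exact (kin_cd_ev l (kin_cd_lap hg)).mul hv
    · refine ContDiff.add ?_ ?_
      · exact ContDiff.sum fun m _ => (kin_cd_ev l (kin_cd_pd m hg)).mul (kin_cd_dv l m hv)
      · exact (kin_cd_ev l (kin_cd_lap hg)).mul hv
  rw [h1]
  have h2 : ∀ l, ((∑ m, (dv k i (fun x : Cf n => pd m g (x l)) x * dv l m v x +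
      pd m g (x l) * dv k i (dv l m v) x)) +
      (dv k i (fun x : Cf n => (fun y => lap g y / 2) (x l)) x * v x +
        lap g (x l) / 2 * dv k i v x)) =
      ((∑ m, pd m g (x l) * dv l m (dv k i v) x) + lap g (x l) / 2 * dv k i v x) +
      (if k = l then (∑ m, pd i (pd m g) (x l) * dv l m v x) +
        pd i (fun y => lap g y / 2) (x l) * v x else 0) := by
    intro l
    rw [kin_dv_ev k l i (kin_cd_lap hg) x]
    have h3 : ∀ m, dv k i (fun x : Cf n => pd m g (x l)) x * dv l m v x +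
        pd m g (x l) * dv k i (dv l m v) x = pd m g (x l) * dv l m (dv k i v) x +
        (if k = l then pd i (pd m g) (x l) * dv l m v x else 0) := by
      intro m
      rw [kin_dv_ev k l i (kin_cd_pd m hg) x, kin_dv_comm k l i m hv x]
      split_ifs <;> ring
    rw [Finset.sum_congr rfl fun m _ => h3 m, Finset.sum_add_distrib]
    split_ifs
    · ring
    · simp
  rw [Finset.sum_congr rfl fun l _ => h2 l, Finset.sum_add_distrib, Finset.sum_ite_eq,
    if_pos (Finset.mem_univ k)]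
  rfl

theorem kin_P_mul {n : ℕ} {g a : R3 → ℝ} (ha : ContDiff ℝ (⊤ : ℕ∞) a) {w : Cf n → ℝ}
    (hw : ContDiff ℝ (⊤ : ℕ∞) w) (k : Fin n) (x : Cf n) :
    Pg g (fun x => a (x k) * w x) x =
      a (x k) * Pg g w x + (∑ m, pd m g (x k) * pd m a (x k)) * w x := by
  unfold Pg
  have h1 : ∀ l, (∑ i, pd i g (x l) * dv l i (fun x : Cf n => a (x k) * w x) x) +
      lap g (x l) / 2 * (a (x k) * w x) =
      a (x k) * ((∑ i, pd i g (x l) * dv l i w x) + lap g (x l) / 2 * w x) +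
      (if l = k then (∑ m, pd m g (x l) * pd m a (x l)) * w x else 0) := by
    intro l
    have h2 : ∀ i, pd i g (x l) * dv l i (fun x : Cf n => a (x k) * w x) x =
        a (x k) * (pd i g (x l) * dv l i w x) +
        (if l = k then pd i g (x l) * pd i a (x l) * w x else 0) := by
      intro i
      rw [kin_dv_mul l i (kin_cd_ev k ha) hw x, kin_dv_ev l k i ha x]
      split_ifs with h
      · subst h; ring
      · ring
    rw [Finset.sum_congr rfl fun i _ => h2 i, Finset.sum_add_distrib, ← Finset.mul_sum]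
    split_ifs
    · rw [← Finset.sum_mul]; ring
    · simp; ring
  rw [Finset.sum_congr rfl fun l _ => h1 l, Finset.sum_add_distrib, Finset.sum_ite_eq',
    if_pos (Finset.mem_univ k), ← Finset.mul_sum]

theorem kin_P_add {n : ℕ} {g : R3 → ℝ} {a b : Cf n → ℝ} (ha : ContDiff ℝ (⊤ : ℕ∞) a)
    (hb : ContDiff ℝ (⊤ : ℕ∞) b) (x : Cf n) :
    Pg g (fun x => a x + b x) x = Pg g a x + Pg g b x := by
  unfold Pg
  rw [← Finset.sum_add_distrib]
  refine Finset.sum_congr rfl fun l _ => ?_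
  have h2 : ∀ i, pd i g (x l) * dv l i (fun x : Cf n => a x + b x) x =
      pd i g (x l) * dv l i a x + pd i g (x l) * dv l i b x := by
    intro i
    rw [kin_dv_add l i ha hb x]; ring
  rw [Finset.sum_congr rfl fun i _ => h2 i, Finset.sum_add_distrib]
  ring

theorem kin_P_sum {n : ℕ} {g : R3 → ℝ} {ι : Type} (s : Finset ι) {f : ι → Cf n → ℝ}
    (hf : ∀ j, ContDiff ℝ (⊤ : ℕ∞) (f j)) (x : Cf n) :
    Pg g (fun x => ∑ j ∈ s, f j x) x = ∑ j ∈ s, Pg g (f j) x := by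
  unfold Pg
  rw [Finset.sum_comm]
  refine Finset.sum_congr rfl fun l _ => ?_
  have h2 : ∀ i, pd i g (x l) * dv l i (fun x : Cf n => ∑ j ∈ s, f j x) x =
      ∑ j ∈ s, pd i g (x l) * dv l i (f j) x := by
    intro i
    rw [kin_dv_sum l i s hf x, Finset.mul_sum]
  rw [Finset.sum_congr rfl fun i _ => h2 i, Finset.sum_add_distrib, Finset.sum_comm,
    Finset.mul_sum]

theorem kin_PC {n : ℕ} {g : R3 → ℝ} (hg : ContDiff ℝ (⊤ : ℕ∞) g) {v : Cf n → ℝ}
    (hv : ContDiff ℝ (⊤ : ℕ∞) v) (k : Fin n) (i : Fin 3) (x : Cf n) :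
    Pg g (kin_C g k i v) x - kin_C g k i (Pg g v) x = kin_B g k i v x := by
  have h1 : Pg g (kin_C g k i v) x =
      (∑ j, (pd i (pd j g) (x k) * Pg g (dv k j v) x +
        (∑ m, pd m g (x k) * pd m (pd i (pd j g)) (x k)) * dv k j v x)) +
      (pd i (fun y => lap g y / 2) (x k) * Pg g v x +
        (∑ m, pd m g (x k) * pd m (pd i (fun y => lap g y / 2)) (x k)) * v x) := by
    unfold kin_C
    rw [kin_P_add (a := fun x => ∑ j, pd i (pd j g) (x k) * dv k j v x)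
      (b := fun x => pd i (fun y => lap g y / 2) (x k) * v x) ?_ ?_ x]
    · congr 1
      · rw [kin_P_sum Finset.univ (f := fun j x => pd i (pd j g) (x k) * dv k j v x)
          (fun j => (kin_cd_ev k (kin_cd_pd i (kin_cd_pd j hg))).mul (kin_cd_dv k j hv)) x]
        refine Finset.sum_congr rfl fun j _ => ?_
        exact kin_P_mul (kin_cd_pd i (kin_cd_pd j hg)) (kin_cd_dv k j hv) k x
      · exact kin_P_mul (kin_cd_pd i (kin_cd_lap hg)) hv k x
    · exact ContDiff.sum fun j _ =>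
        (kin_cd_ev k (kin_cd_pd i (kin_cd_pd j hg))).mul (kin_cd_dv k j hv)
    · exact (kin_cd_ev k (kin_cd_pd i (kin_cd_lap hg))).mul hv
  have h2 : kin_C g k i (Pg g v) x =
      (∑ j, (pd i (pd j g) (x k) * Pg g (dv k j v) x +
        pd i (pd j g) (x k) * kin_C g k j v x)) +
      pd i (fun y => lap g y / 2) (x k) * Pg g v x := by
    rw [show kin_C g k i (Pg g v) x = (∑ j, pd i (pd j g) (x k) * dv k j (Pg g v) x) +
      pd i (fun y => lap g y / 2) (x k) * Pg g v x from rfl]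
    congr 1
    refine Finset.sum_congr rfl fun j _ => ?_
    rw [kin_A hg hv k j x]; ring
  rw [h1, h2, kin_B, Finset.sum_add_distrib, Finset.sum_add_distrib]
  ring

/-! ### the integral identity -/

theorem kin_int {n : ℕ} {f : Cf n → ℝ} (hf : Continuous f) (hc : HasCompactSupport f) :
    Integrable f := hf.integrable_of_hasCompactSupport hc

theorem kin_id {n : ℕ} (hI : ST_IBP) (hP : ST_PAN) (hS : ST_STB) {g : R3 → ℝ}
    (hg : ContDiff ℝ (⊤ : ℕ∞) g) {v : Cf n → ℝ} (hv : ContDiff ℝ (⊤ : ℕ∞) v)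
    (hvc : HasCompactSupport v) (k : Fin n) (i : Fin 3) :
    (∫ x, dv k i (Pg g v) x ^ 2) - ∫ x, Pg g (Pg g v) x * dv k i (dv k i v) x =
      ∫ x, (kin_C g k i v x ^ 2 - dv k i v x * kin_B g k i v x) := by
  have hPv := kin_cd_P hg hv
  have hPc : HasCompactSupport (Pg g v) :=
    (((hS n g (fun _ => v) hg (fun _ => ⟨hv, hvc⟩)).2.1) (fun _ => 0)).2
  have hPPv := kin_cd_P hg hPv
  have hPPc : HasCompactSupport (Pg g (Pg g v)) :=
    (((hS n g (fun _ => Pg g v) hg (fun _ => ⟨hPv, hPc⟩)).2.1) (fun _ => 0)).2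
  have hD := kin_cd_dv k i hv
  have hDc := kin_cs_dv k i hvc
  have hDP := kin_cd_dv k i hPv
  have hDPc := kin_cs_dv k i hPc
  have hPD := kin_cd_P hg hD
  have hPDc : HasCompactSupport (Pg g (dv k i v)) :=
    (((hS n g (fun _ => dv k i v) hg (fun _ => ⟨hD, hDc⟩)).2.1) (fun _ => 0)).2
  have hC := kin_cd_C hg hv k i
  have hPC := kin_cd_P hg hC
  have hCP := kin_cd_C hg hPv k i
  -- integration by parts
  have e1 := hI n k i (Pg g (Pg g v)) (dv k i v) hPPv hPPc hD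
  have e2 : ∀ x, dv k i (Pg g (Pg g v)) x = Pg g (dv k i (Pg g v)) x + kin_C g k i (Pg g v) x :=
    fun x => kin_A hg hPv k i x
  have e3 := hP n g (dv k i (Pg g v)) (dv k i v) hg hDP hDPc hD
  have e4 : ∀ x, dv k i (Pg g v) x = Pg g (dv k i v) x + kin_C g k i v x :=
    fun x => kin_A hg hv k i x
  have e5 := hP n g (dv k i v) (kin_C g k i v) hg hD hDc hC
  -- integrability
  have i1 : Integrable (fun x => Pg g (dv k i (Pg g v)) x * dv k i v x) :=
    kin_int ((kin_cd_P hg hDP).continuous.mul hD.continuous) (hDc.mul_left)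
  have i2 : Integrable (fun x => kin_C g k i (Pg g v) x * dv k i v x) :=
    kin_int (hCP.continuous.mul hD.continuous) (hDc.mul_left)
  have i3 : Integrable (fun x => dv k i (Pg g v) x ^ 2) :=
    kin_int (hDP.continuous.pow 2) (by
      have h := hDPc.mul_left (f := dv k i (Pg g v))
      have h2 : (fun x => dv k i (Pg g v) x ^ 2) = dv k i (Pg g v) * dv k i (Pg g v) := by
        funext x; simp only [Pi.mul_apply]; ring
      rw [h2]; exact h)
  have i4 : Integrable (fun x => dv k i (Pg g v) x * Pg g (dv k i v) x) :=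
    kin_int (hDP.continuous.mul hPD.continuous) (hPDc.mul_left)
  have i5 : Integrable (fun x => Pg g (dv k i v) x * kin_C g k i v x) :=
    kin_int (hPD.continuous.mul hC.continuous) (hPDc.mul_right)
  have i6 : Integrable (fun x => dv k i v x * Pg g (kin_C g k i v) x) :=
    kin_int (hD.continuous.mul hPC.continuous) (hDc.mul_right)
  have hCc : HasCompactSupport (kin_C g k i v) := by
    have h : kin_C g k i v = fun x => dv k i (Pg g v) x - Pg g (dv k i v) x := by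
      funext x; rw [e4 x]; ring
    rw [h]
    exact hDPc.sub hPDc
  have i7 : Integrable (fun x => kin_C g k i v x ^ 2) :=
    kin_int (hC.continuous.pow 2) (by
      have h := hCc.mul_left (f := kin_C g k i v)
      have h2 : (fun x => kin_C g k i v x ^ 2) = kin_C g k i v * kin_C g k i v := by
        funext x; simp only [Pi.mul_apply]; ring
      rw [h2]; exact h)
  have i8 : Integrable (fun x => dv k i v x * kin_C g k i (Pg g v) x) :=
    kin_int (hD.continuous.mul hCP.continuous) (hDc.mul_right)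
  have s1 : ∫ x, Pg g (Pg g v) x * dv k i (dv k i v) x =
      -((∫ x, Pg g (dv k i (Pg g v)) x * dv k i v x) +
        ∫ x, kin_C g k i (Pg g v) x * dv k i v x) := by
    rw [← integral_add i1 i2]
    have h : ∫ x, (Pg g (dv k i (Pg g v)) x * dv k i v x +
        kin_C g k i (Pg g v) x * dv k i v x) = ∫ x, dv k i (Pg g (Pg g v)) x * dv k i v x := by
      refine integral_congr_ae (Filter.Eventually.of_forall fun x => ?_)
      simp only
      rw [e2 x]; ring
    rw [h, e1, neg_neg]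
  have s2 : (∫ x, dv k i (Pg g v) x ^ 2) = (∫ x, dv k i (Pg g v) x * Pg g (dv k i v) x) +
      ((∫ x, Pg g (dv k i v) x * kin_C g k i v x) + ∫ x, kin_C g k i v x ^ 2) := by
    have i57 : Integrable (fun x => Pg g (dv k i v) x * kin_C g k i v x +
        kin_C g k i v x ^ 2) := i5.add i7
    rw [← integral_add i5 i7, ← integral_add i4 i57]
    refine integral_congr_ae (Filter.Eventually.of_forall fun x => ?_)
    simp only
    rw [e4 x]; ring
  have s3 : ∫ x, (kin_C g k i v x ^ 2 - dv k i v x * kin_B g k i v x) =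
      (∫ x, kin_C g k i v x ^ 2) - ((∫ x, dv k i v x * Pg g (kin_C g k i v) x) -
        ∫ x, dv k i v x * kin_C g k i (Pg g v) x) := by
    have i68 : Integrable (fun x => dv k i v x * Pg g (kin_C g k i v) x -
        dv k i v x * kin_C g k i (Pg g v) x) := i6.sub i8
    rw [← integral_sub i6 i8, ← integral_sub i7 i68]
    refine integral_congr_ae (Filter.Eventually.of_forall fun x => ?_)
    simp only
    rw [← kin_PC hg hv k i x]; ring
  have s4 : ∫ x, kin_C g k i (Pg g v) x * dv k i v x = ∫ x, dv k i v x * kin_C g k i (Pg g v) x := by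
    refine integral_congr_ae (Filter.Eventually.of_forall fun x => ?_)
    simp only
    ring
  rw [s1, s2, s3, e3, e5, s4]
  ring

/-! ### bounds -/

theorem kin_K {g : R3 → ℝ} {K r : ℝ} (h : Scale g K r) : 0 ≤ K :=
  (abs_nonneg _).trans (h.d1 0 0)

theorem kin_lap_eq {g : R3 → ℝ} (hg : ContDiff ℝ (⊤ : ℕ∞) g) (i : Fin 3) :
    pd i (fun y => lap g y / 2) = fun y => (∑ l, pd i (pd l (pd l g)) y) / 2 := by
  funext y
  have h1 : (fun y => lap g y / 2) = fun y => (∑ l, (fun l => pd l (pd l g)) l y) / 2 := rfl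
  rw [h1, kin_pd_half Finset.univ i (fun l => kin_cd_pd l (kin_cd_pd l hg)) y]

theorem kin_lap2_eq {g : R3 → ℝ} (hg : ContDiff ℝ (⊤ : ℕ∞) g) (m i : Fin 3) (y : R3) :
    pd m (pd i (fun y => lap g y / 2)) y = (∑ l, pd m (pd i (pd l (pd l g))) y) / 2 := by
  rw [kin_lap_eq hg i]
  have h1 : (fun y => (∑ l, pd i (pd l (pd l g)) y) / 2) =
      fun y => (∑ l, (fun l => pd i (pd l (pd l g))) l y) / 2 := rfl
  rw [h1, kin_pd_half Finset.univ m (fun l => kin_cd_pd i (kin_cd_pd l (kin_cd_pd l hg))) y]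

theorem kin_abs_sum3 {f : Fin 3 → ℝ} {c : ℝ} (h : ∀ l, |f l| ≤ c) : |∑ l, f l| ≤ 3 * c := by
  calc |∑ l, f l| ≤ ∑ l, |f l| := Finset.abs_sum_le_sum_abs _ _
    _ ≤ ∑ _l : Fin 3, c := Finset.sum_le_sum fun l _ => h l
    _ = 3 * c := by simp

theorem kin_ball01 (R : ℝ) (y : R3) : (ball R y = 1 ∧ nr y ≤ R) ∨ (ball R y = 0 ∧ R < nr y) := by
  unfold ball
  by_cases h : nr y ≤ R
  · left; exact ⟨Set.indicator_of_mem (s := {y | nr y ≤ R}) h _, h⟩
  · right; exact ⟨Set.indicator_of_notMem (s := {y | nr y ≤ R}) h _, not_le.1 h⟩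

theorem kin_cut {f : R3 → ℝ} {R c : ℝ} (hf : ∀ y, R < nr y → f y = 0) (hc : ∀ y, |f y| ≤ c)
    (y : R3) : |f y| ≤ c * ball R y := by
  rcases kin_ball01 R y with ⟨h1, _⟩ | ⟨h1, h2⟩
  · rw [h1, mul_one]; exact hc y
  · rw [h1, hf y h2, mul_zero, abs_zero]

/-- the sum of the absolute values of the derivatives -/
noncomputable def kin_G {n : ℕ} (k : Fin n) (v : Cf n → ℝ) (x : Cf n) : ℝ := ∑ j, |dv k j v x|

theorem kin_Cb {n : ℕ} {g : R3 → ℝ} {K r R : ℝ} (hg : Scale g K r) (hr : 0 < r)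
    (hR : ∀ y, R < nr y → g y = 0) (v : Cf n → ℝ) (k : Fin n) (i : Fin 3) (x : Cf n) :
    |kin_C g k i v x| ≤ K / r * kin_G k v x + 3 / 2 * (K / r ^ 2) * ball R (x k) * |v x| := by
  unfold kin_C kin_G
  refine (abs_add_le _ _).trans (add_le_add ?_ ?_)
  · rw [Finset.mul_sum]
    refine (Finset.abs_sum_le_sum_abs _ _).trans (Finset.sum_le_sum fun j _ => ?_)
    rw [abs_mul]
    exact mul_le_mul_of_nonneg_right (hg.d2 i j _) (abs_nonneg _)
  · rw [abs_mul]
    refine mul_le_mul_of_nonneg_right ?_ (abs_nonneg _)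
    rw [kin_lap_eq hg.sm i]
    refine kin_cut (f := fun y => (∑ l, pd i (pd l (pd l g)) y) / 2) ?_ ?_ (x k)
    · intro y hy
      have h0 : ∀ l, pd i (pd l (pd l g)) y = 0 := fun l =>
        kin_pd_zero (kin_pd_zero (kin_pd_zero hR l) l) i y hy
      simp [h0]
    · intro y
      have h0 := kin_abs_sum3 (fun l => hg.d3 i l l y)
      rw [abs_div, abs_two]
      linarith

theorem kin_Bb {n : ℕ} {g : R3 → ℝ} {K r R : ℝ} (hg : Scale g K r) (hr : 0 < r)
    (hR : ∀ y, R < nr y → g y = 0) (v : Cf n → ℝ) (k : Fin n) (i : Fin 3) (x : Cf n) :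
    |kin_B g k i v x| ≤ 6 * (K ^ 2 / r ^ 2) * kin_G k v x +
      9 * (K ^ 2 / r ^ 3) * ball R (x k) * |v x| := by
  have hK := kin_K hg
  have hG : 0 ≤ kin_G k v x := Finset.sum_nonneg fun j _ => abs_nonneg _
  have h1 : |∑ j, (∑ m, pd m g (x k) * pd m (pd i (pd j g)) (x k)) * dv k j v x| ≤
      3 * (K ^ 2 / r ^ 2) * kin_G k v x := by
    unfold kin_G
    rw [Finset.mul_sum]
    refine (Finset.abs_sum_le_sum_abs _ _).trans (Finset.sum_le_sum fun j _ => ?_)
    rw [abs_mul]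
    refine mul_le_mul_of_nonneg_right ?_ (abs_nonneg _)
    refine kin_abs_sum3 fun m => ?_
    rw [abs_mul]
    calc |pd m g (x k)| * |pd m (pd i (pd j g)) (x k)| ≤ K * (K / r ^ 2) :=
          mul_le_mul (hg.d1 m _) (hg.d3 m i j _) (abs_nonneg _) hK
      _ = K ^ 2 / r ^ 2 := by ring
  have h2 : |(∑ m, pd m g (x k) * pd m (pd i (fun y => lap g y / 2)) (x k)) * v x| ≤
      9 / 2 * (K ^ 2 / r ^ 3) * ball R (x k) * |v x| := by
    rw [abs_mul]
    refine mul_le_mul_of_nonneg_right ?_ (abs_nonneg _)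
    refine kin_cut (f := fun y => ∑ m, pd m g y * pd m (pd i (fun y => lap g y / 2)) y) ?_ ?_ (x k)
    · intro y hy
      have h0 : ∀ m, pd m g y = 0 := fun m => kin_pd_zero hR m y hy
      simp [h0]
    · intro y
      have h0 : ∀ m, |pd m g y * pd m (pd i (fun y => lap g y / 2)) y| ≤
          3 / 2 * (K ^ 2 / r ^ 3) := by
        intro m
        rw [kin_lap2_eq hg.sm m i y, abs_mul, abs_div, abs_two]
        have h3 := kin_abs_sum3 (fun l => hg.d4 m i l l y)
        calc |pd m g y| * (|∑ l, pd m (pd i (pd l (pd l g))) y| / 2) ≤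
              K * ((3 * (K / r ^ 3)) / 2) := by
              refine mul_le_mul (hg.d1 m y) ?_ (by positivity) hK
              linarith
          _ = 3 / 2 * (K ^ 2 / r ^ 3) := by ring
      have h4 := kin_abs_sum3 h0
      refine h4.trans (le_of_eq ?_)
      ring
  have h3 : |∑ j, pd i (pd j g) (x k) * kin_C g k j v x| ≤
      3 * (K / r * (K / r * kin_G k v x + 3 / 2 * (K / r ^ 2) * ball R (x k) * |v x|)) := by
    refine kin_abs_sum3 fun j => ?_
    rw [abs_mul]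
    exact mul_le_mul (hg.d2 i j _) (kin_Cb hg hr hR v k j x) (abs_nonneg _) (by positivity)
  unfold kin_B
  refine (abs_sub _ _).trans ?_
  refine (add_le_add ((abs_add_le _ _).trans (add_le_add h1 h2)) h3).trans (le_of_eq ?_)
  field_simp
  ring

theorem kin_pt {n : ℕ} {g : R3 → ℝ} {K r R : ℝ} (hg : Scale g K r) (hr : 0 < r)
    (hR : ∀ y, R < nr y → g y = 0) (v : Cf n → ℝ) (k : Fin n) (i : Fin 3) (x : Cf n) :
    kin_C g k i v x ^ 2 - dv k i v x * kin_B g k i v x ≤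
      39 * K ^ 2 * ((∑ j, dv k j v x ^ 2) / r ^ 2 + ball R (x k) * v x ^ 2 / r ^ 4) := by
  have hK := kin_K hg
  have hG : 0 ≤ kin_G k v x := Finset.sum_nonneg fun j _ => abs_nonneg _
  have hC := kin_Cb hg hr hR v k i x
  have hB := kin_Bb hg hr hR v k i x
  have hD : |dv k i v x| ≤ kin_G k v x :=
    Finset.single_le_sum (f := fun j => |dv k j v x|) (fun j _ => abs_nonneg _)
      (Finset.mem_univ i)
  have hb : ball R (x k) = 1 ∨ ball R (x k) = 0 := by
    rcases kin_ball01 R (x k) with h | h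
    · exact Or.inl h.1
    · exact Or.inr h.1
  obtain ⟨b, hbe⟩ : ∃ b, b = ball R (x k) := ⟨_, rfl⟩
  rw [← hbe] at hC hB hb ⊢
  have hb0 : 0 ≤ b := by rcases hb with h | h <;> rw [h]; norm_num
  have hbb : b ^ 2 = b := by rcases hb with h | h <;> rw [h] <;> norm_num
  obtain ⟨X, hX⟩ : ∃ X, X = kin_G k v x / r := ⟨_, rfl⟩
  obtain ⟨Y, hY⟩ : ∃ Y, Y = b * |v x| / r ^ 2 := ⟨_, rfl⟩
  have hX0 : 0 ≤ X := by rw [hX]; positivity
  have hY0 : 0 ≤ Y := by rw [hY]; positivity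
  have e1 : K / r * kin_G k v x + 3 / 2 * (K / r ^ 2) * b * |v x| = K * (X + 3 / 2 * Y) := by
    rw [hX, hY]; ring
  have e2 : kin_G k v x * (6 * (K ^ 2 / r ^ 2) * kin_G k v x + 9 * (K ^ 2 / r ^ 3) * b * |v x|) =
      K ^ 2 * (6 * X ^ 2 + 9 * X * Y) := by
    rw [hX, hY]; field_simp
  rw [e1] at hC
  have h1 : kin_C g k i v x ^ 2 ≤ (K * (X + 3 / 2 * Y)) ^ 2 := by
    rw [← sq_abs]
    exact pow_le_pow_left₀ (abs_nonneg _) hC 2
  have h2 : -(dv k i v x * kin_B g k i v x) ≤ K ^ 2 * (6 * X ^ 2 + 9 * X * Y) := by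
    rw [← e2]
    calc -(dv k i v x * kin_B g k i v x) ≤ |dv k i v x * kin_B g k i v x| := neg_le_abs _
      _ = |dv k i v x| * |kin_B g k i v x| := abs_mul _ _
      _ ≤ _ := mul_le_mul hD hB (abs_nonneg _) hG
  have h3 : (K * (X + 3 / 2 * Y)) ^ 2 + K ^ 2 * (6 * X ^ 2 + 9 * X * Y) ≤
      K ^ 2 * (13 * X ^ 2 + 39 * Y ^ 2) := by
    have h4 : (X + 3 / 2 * Y) ^ 2 + (6 * X ^ 2 + 9 * X * Y) ≤ 13 * X ^ 2 + 39 * Y ^ 2 := by
      nlinarith [sq_nonneg (X - Y), sq_nonneg Y]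
    calc (K * (X + 3 / 2 * Y)) ^ 2 + K ^ 2 * (6 * X ^ 2 + 9 * X * Y) =
          K ^ 2 * ((X + 3 / 2 * Y) ^ 2 + (6 * X ^ 2 + 9 * X * Y)) := by ring
      _ ≤ _ := mul_le_mul_of_nonneg_left h4 (by positivity)
  have h5 : kin_G k v x ^ 2 ≤ 3 * ∑ j, dv k j v x ^ 2 := by
    unfold kin_G
    rw [Fin.sum_univ_three, Fin.sum_univ_three]
    rw [← sq_abs (dv k 0 v x), ← sq_abs (dv k 1 v x), ← sq_abs (dv k 2 v x)]
    nlinarith [sq_nonneg (|dv k 0 v x| - |dv k 1 v x|), sq_nonneg (|dv k 0 v x| - |dv k 2 v x|),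
      sq_nonneg (|dv k 1 v x| - |dv k 2 v x|)]
  have h6 : X ^ 2 ≤ 3 * ((∑ j, dv k j v x ^ 2) / r ^ 2) := by
    rw [hX, div_pow]
    calc kin_G k v x ^ 2 / r ^ 2 ≤ (3 * ∑ j, dv k j v x ^ 2) / r ^ 2 := by gcongr
      _ = _ := by ring
  have h7 : Y ^ 2 = b * v x ^ 2 / r ^ 4 := by
    rw [hY, div_pow, mul_pow, hbb, sq_abs]; ring
  calc kin_C g k i v x ^ 2 - dv k i v x * kin_B g k i v x ≤
        K ^ 2 * (13 * X ^ 2 + 39 * Y ^ 2) := by linarith
    _ ≤ K ^ 2 * (13 * (3 * ((∑ j, dv k j v x ^ 2) / r ^ 2)) + 39 * (b * v x ^ 2 / r ^ 4)) := by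
        rw [← h7]; gcongr
    _ = _ := by ring

/-! ### the row -/

theorem kin_sum {n : ℕ} (w : Wf n) : kin w = ∑ s, ∑ k, ∑ i, ∫ x, dv k i (w s) x ^ 2 := by
  unfold kin sq
  calc ∑ k, ∑ i, ∑ s, ∫ x, dv k i (w s) x ^ 2 = ∑ k, ∑ s, ∑ i, ∫ x, dv k i (w s) x ^ 2 :=
        Finset.sum_congr rfl fun k _ => Finset.sum_comm
    _ = ∑ s, ∑ k, ∑ i, ∫ x, dv k i (w s) x ^ 2 := Finset.sum_comm

theorem kin_isq {n : ℕ} {v : Cf n → ℝ} (hv : Continuous v) (hc : HasCompactSupport v) :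
    Integrable (fun x => v x ^ 2) :=
  kin_int (hv.pow 2) (by
    have h := hc.mul_left (f := v)
    have h2 : (fun x => v x ^ 2) = v * v := by
      funext x; simp only [Pi.mul_apply]; ring
    rw [h2]; exact h)

theorem kin_iball {n : ℕ} {v : Cf n → ℝ} (hv : Continuous v) (hc : HasCompactSupport v)
    (R : ℝ) (k : Fin n) : Integrable (fun x => ball R (x k) * v x ^ 2) := by
  have hcn : Continuous nr := by
    unfold nr
    fun_prop
  have hm : MeasurableSet {x : Cf n | nr (x k) ≤ R} :=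
    (isClosed_le (hcn.comp (continuous_apply k)) continuous_const).measurableSet
  have h1 := (kin_isq hv hc).indicator hm
  refine h1.congr (Filter.Eventually.of_forall fun x => ?_)
  simp only
  by_cases h : nr (x k) ≤ R
  · rw [Set.indicator_of_mem (s := {x : Cf n | nr (x k) ≤ R}) h]
    rcases kin_ball01 R (x k) with h2 | h2
    · rw [h2.1, one_mul]
    · exact absurd h (not_le.2 h2.2)
  · rw [Set.indicator_of_notMem (s := {x : Cf n | nr (x k) ≤ R}) h]
    rcases kin_ball01 R (x k) with h2 | h2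
    · exact absurd h2.2 h
    · rw [h2.1, zero_mul]

theorem kin_one_le {n : ℕ} {g : R3 → ℝ} {K r R : ℝ} (hg : Scale g K r) (hr : 0 < r)
    (hR : ∀ y, R < nr y → g y = 0) {v : Cf n → ℝ} (hv : ContDiff ℝ (⊤ : ℕ∞) v)
    (hvc : HasCompactSupport v) (k : Fin n) (i : Fin 3) :
    ∫ x, (kin_C g k i v x ^ 2 - dv k i v x * kin_B g k i v x) ≤
      39 * K ^ 2 * ((∑ j, ∫ x, dv k j v x ^ 2) / r ^ 2 +
        (∫ x, ball R (x k) * v x ^ 2) / r ^ 4) := by
  have i1 : ∀ j, Integrable (fun x => dv k j v x ^ 2) := fun j =>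
    kin_isq (kin_cd_dv k j hv).continuous (kin_cs_dv k j hvc)
  have i2 : Integrable (fun x => ∑ j, dv k j v x ^ 2) := integrable_finset_sum _ fun j _ => i1 j
  have i3 := kin_iball hv.continuous hvc R k
  have i4 : Integrable (fun x => (∑ j, dv k j v x ^ 2) / r ^ 2 + ball R (x k) * v x ^ 2 / r ^ 4) :=
    (i2.div_const _).add (i3.div_const _)
  have i5 := i4.const_mul (39 * K ^ 2)
  have e1 : ∫ x, 39 * K ^ 2 * ((∑ j, dv k j v x ^ 2) / r ^ 2 + ball R (x k) * v x ^ 2 / r ^ 4) =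
      39 * K ^ 2 * ((∑ j, ∫ x, dv k j v x ^ 2) / r ^ 2 +
        (∫ x, ball R (x k) * v x ^ 2) / r ^ 4) := by
    rw [integral_const_mul, integral_add (i2.div_const _) (i3.div_const _), integral_div,
      integral_div, integral_finset_sum _ fun j _ => i1 j]
  rw [← e1]
  by_cases hf : Integrable (fun x => kin_C g k i v x ^ 2 - dv k i v x * kin_B g k i v x)
  · exact integral_mono hf i5 fun x => kin_pt hg hr hR v k i x
  · rw [integral_undef hf]
    refine integral_nonneg fun x => ?_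
    have h1 : 0 ≤ ball R (x k) := by
      rcases kin_ball01 R (x k) with h | h <;> rw [h.1]
      norm_num
    have h2 : 0 ≤ ∑ j, dv k j v x ^ 2 := Finset.sum_nonneg fun j _ => sq_nonneg _
    simp only [Pi.zero_apply]
    positivity

theorem st_KIN (hI : ST_IBP) (hP : ST_PAN) (hS : ST_STB) : ST_KIN := by
  refine ⟨117, by norm_num, ?_⟩
  intro n g K r R u hg hr hR hu
  have key : ∀ s, (∑ k, ∑ i, ∫ x, dv k i (Pg g (u s)) x ^ 2) -
      ∫ x, Pg g (Pg g (u s)) x * ∑ k, ∑ i, dv k i (dv k i (u s)) x ≤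
      117 * K ^ 2 * ((∑ k, ∑ i, ∫ x, dv k i (u s) x ^ 2) / r ^ 2 +
        (∫ x, (∑ k, ball R (x k)) * u s x ^ 2) / r ^ 4) := by
    intro s
    obtain ⟨hv, hvc⟩ := hu s
    have hPv := kin_cd_P hg.sm hv
    have hPc : HasCompactSupport (Pg g (u s)) := ((hS n g u hg.sm hu).2.1 s).2
    have hPPv := kin_cd_P hg.sm hPv
    have hPPc : HasCompactSupport (Pg g (Pg g (u s))) :=
      (((hS n g (fun _ => Pg g (u s)) hg.sm (fun _ => ⟨hPv, hPc⟩)).2.1) s).2
    have e1 : ∫ x, Pg g (Pg g (u s)) x * ∑ k, ∑ i, dv k i (dv k i (u s)) x =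
        ∑ k, ∑ i, ∫ x, Pg g (Pg g (u s)) x * dv k i (dv k i (u s)) x := by
      have i1 : ∀ k i, Integrable (fun x => Pg g (Pg g (u s)) x * dv k i (dv k i (u s)) x) :=
        fun k i => kin_int (hPPv.continuous.mul (kin_cd_dv k i (kin_cd_dv k i hv)).continuous)
          (hPPc.mul_right)
      rw [← Finset.sum_congr rfl fun k _ => integral_finset_sum Finset.univ fun i _ => i1 k i,
        ← integral_finset_sum Finset.univ fun k _ => integrable_finset_sum _ fun i _ => i1 k i]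
      refine integral_congr_ae (Filter.Eventually.of_forall fun x => ?_)
      simp only [Finset.mul_sum]
    have e2 : ∫ x, (∑ k, ball R (x k)) * u s x ^ 2 = ∑ k, ∫ x, ball R (x k) * u s x ^ 2 := by
      rw [← integral_finset_sum Finset.univ fun k _ => kin_iball hv.continuous hvc R k]
      refine integral_congr_ae (Filter.Eventually.of_forall fun x => ?_)
      simp only [Finset.sum_mul]
    rw [e1, e2, ← Finset.sum_sub_distrib]
    have e3 : ∀ k, (∑ i, ∫ x, dv k i (Pg g (u s)) x ^ 2) -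
        ∑ i, ∫ x, Pg g (Pg g (u s)) x * dv k i (dv k i (u s)) x ≤
        117 * K ^ 2 * ((∑ i, ∫ x, dv k i (u s) x ^ 2) / r ^ 2 +
          (∫ x, ball R (x k) * u s x ^ 2) / r ^ 4) := by
      intro k
      rw [← Finset.sum_sub_distrib]
      calc ∑ i, ((∫ x, dv k i (Pg g (u s)) x ^ 2) -
            ∫ x, Pg g (Pg g (u s)) x * dv k i (dv k i (u s)) x)
          ≤ ∑ _i : Fin 3, 39 * K ^ 2 * ((∑ j, ∫ x, dv k j (u s) x ^ 2) / r ^ 2 +
            (∫ x, ball R (x k) * u s x ^ 2) / r ^ 4) := by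
            refine Finset.sum_le_sum fun i _ => ?_
            rw [kin_id hI hP hS hg.sm hv hvc k i]
            exact kin_one_le hg hr hR hv hvc k i
        _ = _ := by
            rw [Finset.sum_const, Finset.card_univ, Fintype.card_fin, nsmul_eq_mul]
            push_cast
            ring
    refine (Finset.sum_le_sum fun k _ => e3 k).trans (le_of_eq ?_)
    rw [← Finset.mul_sum, Finset.sum_add_distrib, Finset.sum_div, Finset.sum_div]
  rw [kin_sum (fun s => Pg g (u s)), kin_sum u, ← Finset.sum_sub_distrib]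
  refine (Finset.sum_le_sum fun s _ => key s).trans (le_of_eq ?_)
  unfold one
  rw [← Finset.mul_sum, Finset.sum_add_distrib, Finset.sum_div, Finset.sum_div]

end Pool.Agent.Helper95.PW
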